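import Mathlib

set_option autoImplicit false
set_option linter.unusedSectionVars false

/-!
Every Banach space `V ≠ 0` is the range of a norm-one projection on a Banach space `XX` all whose
operator spaces `L(XX, Z)` contain the norm attaining operators as a dense subset.
-/

open Metric Set
open scoped ENNReal Topology

namespace Pool.Agent.Q169.NAD

noncomputable section

section
variable {𝕜 : Type*} [RCLike 𝕜]

/-- `T` attains its norm -/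
def Attains {X Y : Type*} [NormedAddCommGroup X] [NormedSpace 𝕜 X] [NormedAddCommGroup Y]
    [NormedSpace 𝕜 Y] (T : X →L[𝕜] Y) : Prop := ∃ x : X, ‖x‖ = 1 ∧ ‖T x‖ = ‖T‖

end

variable (𝕜 : Type*) [RCLike 𝕜] (V : Type*) [NormedAddCommGroup V] [NormedSpace 𝕜 V]

/-- the unit sphere -/
abbrev SV := {u : V // ‖u‖ = 1}

instance : DecidableEq (SV V) := Classical.decEq _

/-- `ℓ₁` over the unit sphere -/
abbrev L1 := lp (fun _ : SV V => 𝕜) 1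

/-- the space -/
def XX := V × L1 𝕜 V

instance : AddCommGroup (XX 𝕜 V) := inferInstanceAs (AddCommGroup (V × L1 𝕜 V))

instance : Module 𝕜 (XX 𝕜 V) := inferInstanceAs (Module 𝕜 (V × L1 𝕜 V))

variable {𝕜 V}

/-- constructor -/
def mk (x : V) (y : L1 𝕜 V) : XX 𝕜 V := (x, y)

/-- first coordinate -/
def p1 : XX 𝕜 V →ₗ[𝕜] V := LinearMap.fst 𝕜 V (L1 𝕜 V)

/-- second coordinate -/
def p2 : XX 𝕜 V →ₗ[𝕜] L1 𝕜 V := LinearMap.snd 𝕜 V (L1 𝕜 V)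

@[simp] lemma p1_mk (x : V) (y : L1 𝕜 V) : p1 (mk x y) = x := rfl
@[simp] lemma p2_mk (x : V) (y : L1 𝕜 V) : p2 (mk x y) = y := rfl

lemma ext' {v w : XX 𝕜 V} (h1 : p1 v = p1 w) (h2 : p2 v = p2 w) : v = w := Prod.ext h1 h2

lemma mk_add (x x' : V) (y y' : L1 𝕜 V) : mk x y + mk x' y' = mk (x + x') (y + y') := rfl

lemma mk_eta (v : XX 𝕜 V) : mk (p1 v) (p2 v) = v := rfl

lemma summ (y : L1 𝕜 V) : Summable fun u => ‖y u‖ := by
  have h := (lp.memℓp y).summable (by norm_num)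
  simpa using h

lemma norm1 (y : L1 𝕜 V) : ‖y‖ = ∑' u, ‖y u‖ := by
  have h := lp.norm_eq_tsum_rpow (p := 1) (by norm_num) y
  simpa using h

/-- one of the seminorms -/
noncomputable def tm (f : StrongDual 𝕜 V) (v : XX 𝕜 V) : ℝ :=
  ‖f (p1 v)‖ + ∑' u : SV V, (1 - ‖f u‖) * ‖p2 v u‖

lemma fu_le {f : StrongDual 𝕜 V} (hf : ‖f‖ ≤ 1) (u : SV V) : ‖f u‖ ≤ 1 := by
  have := f.le_opNorm u
  rw [u.2, mul_one] at this
  linarith

lemma summ2 {f : StrongDual 𝕜 V} (hf : ‖f‖ ≤ 1) (y : L1 𝕜 V) :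
    Summable fun u : SV V => (1 - ‖f u‖) * ‖y u‖ := by
  refine Summable.of_nonneg_of_le (fun u => ?_) (fun u => ?_) (summ y)
  · exact mul_nonneg (by linarith [fu_le hf u]) (norm_nonneg _)
  · have : 1 - ‖f u‖ ≤ 1 := by linarith [norm_nonneg (f u)]
    calc (1 - ‖f u‖) * ‖y u‖ ≤ 1 * ‖y u‖ := mul_le_mul_of_nonneg_right this (norm_nonneg _)
      _ = ‖y u‖ := one_mul _

lemma tm_nonneg {f : StrongDual 𝕜 V} (hf : ‖f‖ ≤ 1) (v : XX 𝕜 V) : 0 ≤ tm f v :=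
  add_nonneg (norm_nonneg _) (tsum_nonneg fun u =>
    mul_nonneg (by linarith [fu_le hf u]) (norm_nonneg _))

lemma tm_le {f : StrongDual 𝕜 V} (hf : ‖f‖ ≤ 1) (v : XX 𝕜 V) : tm f v ≤ ‖p1 v‖ + ‖p2 v‖ := by
  refine add_le_add ?_ ?_
  · calc ‖f (p1 v)‖ ≤ ‖f‖ * ‖p1 v‖ := f.le_opNorm _
      _ ≤ 1 * ‖p1 v‖ := mul_le_mul_of_nonneg_right hf (norm_nonneg _)
      _ = ‖p1 v‖ := one_mul _
  · rw [norm1]
    refine (summ2 hf _).tsum_le_tsum (fun u => ?_) (summ _)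
    have : 1 - ‖f u‖ ≤ 1 := by linarith [norm_nonneg (f u)]
    calc (1 - ‖f u‖) * ‖p2 v u‖ ≤ 1 * ‖p2 v u‖ :=
          mul_le_mul_of_nonneg_right this (norm_nonneg _)
      _ = ‖p2 v u‖ := one_mul _

lemma tm_add {f : StrongDual 𝕜 V} (hf : ‖f‖ ≤ 1) (v w : XX 𝕜 V) :
    tm f (v + w) ≤ tm f v + tm f w := by
  have h1 : ‖f (p1 (v + w))‖ ≤ ‖f (p1 v)‖ + ‖f (p1 w)‖ := by
    rw [map_add, map_add]
    exact norm_add_le _ _
  have h2 : ∑' u : SV V, (1 - ‖f u‖) * ‖p2 (v + w) u‖ ≤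
      ∑' u : SV V, (1 - ‖f u‖) * ‖p2 v u‖ + ∑' u : SV V, (1 - ‖f u‖) * ‖p2 w u‖ := by
    rw [← (summ2 hf _).tsum_add (summ2 hf _)]
    refine (summ2 hf _).tsum_le_tsum (fun u => ?_) ((summ2 hf _).add (summ2 hf _))
    rw [← mul_add]
    refine mul_le_mul_of_nonneg_left ?_ (by linarith [fu_le hf u])
    rw [map_add]
    exact norm_add_le _ _
  unfold tm
  linarith

lemma tm_smul (f : StrongDual 𝕜 V) (c : 𝕜) (v : XX 𝕜 V) : tm f (c • v) = ‖c‖ * tm f v := by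
  unfold tm
  rw [mul_add, ← tsum_mul_left]
  congr 1
  · rw [map_smul, map_smul, norm_smul]
  · refine tsum_congr fun u => ?_
    rw [map_smul]
    have : (c • p2 v : L1 𝕜 V) u = c * p2 v u := rfl
    rw [this, norm_mul]
    ring

/-- the dual unit ball -/
abbrev BB (𝕜 : Type*) [RCLike 𝕜] (V : Type*) [NormedAddCommGroup V] [NormedSpace 𝕜 V] :=
  {f : StrongDual 𝕜 V // ‖f‖ ≤ 1}

instance : Nonempty (BB 𝕜 V) := ⟨⟨0, by simp⟩⟩

/-- the norm -/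
noncomputable def nn (v : XX 𝕜 V) : ℝ := ⨆ f : BB 𝕜 V, tm f.1 v

lemma bdd (v : XX 𝕜 V) : BddAbove (range fun f : BB 𝕜 V => tm f.1 v) := by
  refine ⟨‖p1 v‖ + ‖p2 v‖, ?_⟩
  rintro _ ⟨f, rfl⟩
  exact tm_le f.2 v

lemma le_nn {f : StrongDual 𝕜 V} (hf : ‖f‖ ≤ 1) (v : XX 𝕜 V) : tm f v ≤ nn v :=
  le_ciSup (bdd v) (⟨f, hf⟩ : BB 𝕜 V)

lemma nn_le {v : XX 𝕜 V} {C : ℝ} (h : ∀ f : StrongDual 𝕜 V, ‖f‖ ≤ 1 → tm f v ≤ C) : nn v ≤ C :=
  ciSup_le fun f => h f.1 f.2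

lemma nn_le_add (v : XX 𝕜 V) : nn v ≤ ‖p1 v‖ + ‖p2 v‖ := nn_le fun _ hf => tm_le hf v

lemma p2_le (v : XX 𝕜 V) : ‖p2 v‖ ≤ nn v := by
  refine le_trans (le_of_eq ?_) (le_nn (f := (0 : StrongDual 𝕜 V)) (by simp) v)
  unfold tm
  simp [norm1]

lemma p1_le (v : XX 𝕜 V) : ‖p1 v‖ ≤ nn v := by
  rcases eq_or_ne (p1 v) 0 with h | h
  · rw [h, norm_zero]
    exact (tm_nonneg (by simp) v).trans (le_nn (f := (0 : StrongDual 𝕜 V)) (by simp) v)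
  · obtain ⟨g, hg, hgv⟩ := exists_dual_vector 𝕜 (p1 v) (norm_ne_zero_iff.2 h)
    refine le_trans ?_ (le_nn hg.le v)
    unfold tm
    rw [hgv]
    have : 0 ≤ ∑' u : SV V, (1 - ‖g u‖) * ‖p2 v u‖ := tsum_nonneg fun u =>
      mul_nonneg (by linarith [fu_le hg.le u]) (norm_nonneg _)
    simpa using this

lemma nn_nonneg (v : XX 𝕜 V) : 0 ≤ nn v := (norm_nonneg _).trans (p2_le v)

noncomputable instance : Norm (XX 𝕜 V) := ⟨nn⟩

lemma norm_def (v : XX 𝕜 V) : ‖v‖ = nn v := rfl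

lemma core : NormedSpace.Core 𝕜 (XX 𝕜 V) where
  norm_nonneg := nn_nonneg
  norm_smul c v := by
    change nn (c • v) = ‖c‖ * nn v
    unfold nn
    rw [Real.mul_iSup_of_nonneg (norm_nonneg _)]
    exact iSup_congr fun f => tm_smul _ _ _
  norm_triangle v w := by
    change nn (v + w) ≤ nn v + nn w
    exact nn_le fun f hf => (tm_add hf v w).trans (add_le_add (le_nn hf v) (le_nn hf w))
  norm_eq_zero_iff v := by
    change nn v = 0 ↔ v = 0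
    constructor
    · intro h
      have h1 := p1_le v
      have h2 := p2_le v
      rw [h] at h1 h2
      exact ext' (by simpa using h1) (by simpa using h2)
    · rintro rfl
      refine le_antisymm ?_ (nn_nonneg _)
      refine (nn_le_add _).trans ?_
      simp

noncomputable instance : NormedAddCommGroup (XX 𝕜 V) := NormedAddCommGroup.ofCore core

noncomputable instance : NormedSpace 𝕜 (XX 𝕜 V) := NormedSpace.ofCore core

lemma norm_def' (v : XX 𝕜 V) : ‖v‖ = nn v := rfl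

lemma norm_mk_zero (x : V) : ‖(mk x 0 : XX 𝕜 V)‖ = ‖x‖ := by
  refine le_antisymm ?_ (p1_le (mk x 0))
  exact (nn_le_add (mk x 0)).trans (by simp)

/-- the underlying linear equivalence -/
def ee : XX 𝕜 V ≃ₗ[𝕜] V × L1 𝕜 V := LinearEquiv.refl 𝕜 (V × L1 𝕜 V)

lemma ee_apply (v : XX 𝕜 V) : ee v = (p1 v, p2 v) := rfl

/-- as a continuous linear equivalence -/
def eL : XX 𝕜 V ≃L[𝕜] V × L1 𝕜 V :=
  (ee (𝕜 := 𝕜) (V := V)).toContinuousLinearEquivOfBounds 1 2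
    (fun v => by
      rw [ee_apply, Prod.norm_def, one_mul]
      exact max_le (p1_le v) (p2_le v))
    (fun w => by
      obtain ⟨x, y⟩ := w
      have h1 : ‖(mk x y : XX 𝕜 V)‖ ≤ ‖x‖ + ‖y‖ := nn_le_add (mk x y)
      have h2 : ‖x‖ ≤ ‖(x, y)‖ := le_max_left _ _
      have h3 : ‖y‖ ≤ ‖(x, y)‖ := le_max_right _ _
      change ‖(mk x y : XX 𝕜 V)‖ ≤ 2 * ‖(x, y)‖
      linarith)

instance [CompleteSpace V] : CompleteSpace (XX 𝕜 V) := by
  have h := (eL (𝕜 := 𝕜) (V := V)).isUniformEmbedding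
  exact (completeSpace_congr (e := (eL (𝕜 := 𝕜) (V := V)).toEquiv) h).2 inferInstance

/-- the extreme points -/
def PP (u : SV V) (θ : 𝕜) : XX 𝕜 V := mk (u : V) (lp.single 1 u θ)

lemma tm_PP {f : StrongDual 𝕜 V} (u : SV V) {θ : 𝕜} (hθ : ‖θ‖ = 1) :
    tm f (PP u θ) = 1 := by
  unfold tm
  have : ∑' w : SV V, (1 - ‖f w‖) * ‖p2 (PP u θ) w‖ = (1 - ‖f u‖) * ‖p2 (PP u θ) u‖ := by
    refine tsum_eq_single u fun w hw => ?_
    have : p2 (PP u θ) w = 0 := lp.single_apply_ne (E := fun _ : SV V => 𝕜) 1 u θ hw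
    rw [this, norm_zero, mul_zero]
  rw [this]
  have h2 : p2 (PP u θ) u = θ := lp.single_apply_self (E := fun _ : SV V => 𝕜) 1 u θ
  rw [h2, hθ]
  change ‖f u‖ + (1 - ‖f u‖) * 1 = 1
  ring

lemma norm_PP (u : SV V) {θ : 𝕜} (hθ : ‖θ‖ = 1) : ‖PP u θ‖ = 1 := by
  refine le_antisymm (nn_le fun f _ => (tm_PP u hθ).le) ?_
  have := le_nn (f := (0 : StrongDual 𝕜 V)) (by simp) (PP u θ)
  rwa [tm_PP u hθ] at this

/-- second inclusion -/
def i2 : L1 𝕜 V →L[𝕜] XX 𝕜 V :=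
  (eL (𝕜 := 𝕜) (V := V)).symm.toContinuousLinearMap.comp (ContinuousLinearMap.inr 𝕜 V (L1 𝕜 V))

lemma i2_apply (y : L1 𝕜 V) : i2 y = mk 0 y := rfl

lemma tsum_formula (φ : StrongDual 𝕜 (XX 𝕜 V)) (v : XX 𝕜 V) :
    ‖φ v‖ ≤ ‖φ (mk (p1 v) 0)‖ + ∑' u : SV V, ‖φ (i2 (lp.single 1 u 1))‖ * ‖p2 v u‖ := by
  have hv : v = mk (p1 v) 0 + i2 (p2 v) := by
    rw [i2_apply, mk_add, add_zero, zero_add, mk_eta]
  have hs : HasSum (fun u => lp.single 1 u (p2 v u)) (p2 v) :=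
    lp.hasSum_single (E := fun _ : SV V => 𝕜) (by norm_num) (p2 v)
  have hs2 := hs.mapL (φ.comp i2)
  have hc : ∀ u, (φ.comp i2) (lp.single 1 u (p2 v u)) = p2 v u * φ (i2 (lp.single 1 u 1)) := by
    intro u
    have : (lp.single 1 u (p2 v u) : L1 𝕜 V) = p2 v u • lp.single 1 u (1 : 𝕜) := by
      rw [← lp.single_smul, smul_eq_mul, mul_one]
    rw [this, ContinuousLinearMap.comp_apply, map_smul, map_smul, smul_eq_mul]
  have hb : ∀ u : SV V, ‖φ (i2 (lp.single 1 u 1))‖ ≤ ‖φ.comp i2‖ := by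
    intro u
    have := (φ.comp i2).le_opNorm (lp.single 1 u (1 : 𝕜))
    rwa [lp.norm_single (E := fun _ : SV V => 𝕜) (by norm_num), norm_one, mul_one] at this
  have hsm : Summable fun u : SV V => ‖φ (i2 (lp.single 1 u 1))‖ * ‖p2 v u‖ := by
    refine Summable.of_nonneg_of_le (fun u => by positivity) (fun u => ?_)
      ((summ (p2 v)).mul_left ‖φ.comp i2‖)
    exact mul_le_mul_of_nonneg_right (hb u) (norm_nonneg _)
  have h1 : φ v = φ (mk (p1 v) 0) + ∑' u, (φ.comp i2) (lp.single 1 u (p2 v u)) := by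
    rw [hs2.tsum_eq]
    conv_lhs => rw [hv]
    rw [map_add]
    rfl
  rw [h1]
  refine (norm_add_le _ _).trans (add_le_add le_rfl ?_)
  have hsm' : Summable fun u => ‖(φ.comp i2) (lp.single 1 u (p2 v u))‖ := by
    refine hsm.congr fun u => ?_
    rw [hc, norm_mul, mul_comm]
  refine (norm_tsum_le_tsum_norm hsm').trans (le_of_eq ?_)
  refine tsum_congr fun u => ?_
  rw [hc, norm_mul, mul_comm]

/-- some unimodular multiple of `b` is aligned with `a` -/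
lemma exists_align (a b : 𝕜) : ∃ θ : 𝕜, ‖θ‖ = 1 ∧ ‖a + θ * b‖ = ‖a‖ + ‖b‖ := by
  rcases eq_or_ne b 0 with rfl | hb
  · exact ⟨1, by simp, by simp⟩
  rcases eq_or_ne a 0 with rfl | ha
  · exact ⟨1, by simp, by simp⟩
  have hb' : (‖b‖ : 𝕜) ≠ 0 := by exact_mod_cast norm_ne_zero_iff.2 hb
  have ha' : (‖a‖ : 𝕜) ≠ 0 := by exact_mod_cast norm_ne_zero_iff.2 ha
  refine ⟨(a / ‖a‖) * (‖b‖ / b), ?_, ?_⟩
  · rw [norm_mul, norm_div, norm_div, RCLike.norm_ofReal, RCLike.norm_ofReal, abs_norm, abs_norm,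
      div_self (norm_ne_zero_iff.2 ha), div_self (norm_ne_zero_iff.2 hb), mul_one]
  · have : a + a / ‖a‖ * (‖b‖ / b) * b = (a / ‖a‖) * ((‖a‖ + ‖b‖ : ℝ) : 𝕜) := by
      push_cast
      field_simp
    rw [this, norm_mul, norm_div, RCLike.norm_ofReal, RCLike.norm_ofReal, abs_norm,
      div_self (norm_ne_zero_iff.2 ha), one_mul, abs_of_nonneg (by positivity)]

lemma fun_bound {φ : StrongDual 𝕜 (XX 𝕜 V)} {M : ℝ} (hM : 0 < M)
    (h : ∀ u : SV V, ∀ θ : 𝕜, ‖θ‖ = 1 → ‖φ (PP u θ)‖ ≤ M) (v : XX 𝕜 V) : ‖φ v‖ ≤ M * ‖v‖ := by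
  have h1 : ∀ u : SV V, ‖φ (mk (u : V) 0)‖ + ‖φ (i2 (lp.single 1 u 1))‖ ≤ M := by
    intro u
    obtain ⟨θ, hθ, he⟩ := exists_align (φ (mk (u : V) 0)) (φ (i2 (lp.single 1 u 1)))
    rw [← he]
    refine le_trans (le_of_eq ?_) (h u θ hθ)
    congr 1
    have : PP u θ = mk (u : V) 0 + θ • i2 (lp.single 1 u (1 : 𝕜)) := by
      rw [← map_smul, i2_apply, mk_add, add_zero, zero_add, ← lp.single_smul, smul_eq_mul, mul_one]
      rfl
    rw [this, map_add, map_smul, smul_eq_mul]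
  -- the functional on `V`
  let i1 : V →L[𝕜] XX 𝕜 V :=
    (eL (𝕜 := 𝕜) (V := V)).symm.toContinuousLinearMap.comp (ContinuousLinearMap.inl 𝕜 V (L1 𝕜 V))
  have i1a : ∀ x, i1 x = mk x 0 := fun x => rfl
  let f : StrongDual 𝕜 V := ((M⁻¹ : ℝ) : 𝕜) • φ.comp i1
  have fa : ∀ x, ‖f x‖ = M⁻¹ * ‖φ (mk x 0)‖ := by
    intro x
    change ‖((M⁻¹ : ℝ) : 𝕜) * φ (i1 x)‖ = _
    rw [norm_mul, RCLike.norm_ofReal, abs_of_nonneg (by positivity), i1a]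
  have hf : ‖f‖ ≤ 1 := by
    refine f.opNorm_le_bound zero_le_one fun x => ?_
    rw [one_mul]
    rcases eq_or_ne x 0 with rfl | hx
    · simp
    have hx' : ‖x‖ ≠ 0 := norm_ne_zero_iff.2 hx
    let u : SV V := ⟨((‖x‖⁻¹ : ℝ) : 𝕜) • x, by
      rw [norm_smul, RCLike.norm_ofReal, abs_of_nonneg (by positivity), inv_mul_cancel₀ hx']⟩
    have hu : ‖φ (mk (u : V) 0)‖ ≤ M := (le_add_of_nonneg_right (norm_nonneg _)).trans (h1 u)
    have hux : ‖f (u : V)‖ = ‖x‖⁻¹ * ‖f x‖ := by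
      change ‖f (((‖x‖⁻¹ : ℝ) : 𝕜) • x)‖ = _
      rw [map_smul, norm_smul, RCLike.norm_ofReal, abs_of_nonneg (by positivity)]
    have h2 : ‖f (u : V)‖ ≤ 1 := by
      rw [fa]
      calc M⁻¹ * ‖φ (mk (u : V) 0)‖ ≤ M⁻¹ * M := mul_le_mul_of_nonneg_left hu (by positivity)
        _ = 1 := inv_mul_cancel₀ hM.ne'
    rw [hux] at h2
    have hxp : 0 < ‖x‖ := norm_pos_iff.2 hx
    calc ‖f x‖ = ‖x‖ * (‖x‖⁻¹ * ‖f x‖) := by field_simp
      _ ≤ ‖x‖ * 1 := mul_le_mul_of_nonneg_left h2 hxp.le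
      _ = ‖x‖ := mul_one _
  have h3 : tm f v ≤ ‖v‖ := le_nn hf v
  refine (tsum_formula φ v).trans ?_
  have h4 : ‖φ (mk (p1 v) 0)‖ + ∑' u : SV V, ‖φ (i2 (lp.single 1 u 1))‖ * ‖p2 v u‖ ≤
      M * tm f v := by
    unfold tm
    rw [mul_add, ← tsum_mul_left, fa, ← mul_assoc, mul_inv_cancel₀ hM.ne', one_mul]
    refine add_le_add le_rfl ?_
    have hle : ∀ u : SV V, ‖φ (i2 (lp.single 1 u 1))‖ * ‖p2 v u‖ ≤
        M * ((1 - ‖f u‖) * ‖p2 v u‖) := by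
      intro u
      rw [← mul_assoc]
      refine mul_le_mul_of_nonneg_right ?_ (norm_nonneg _)
      rw [fa, mul_sub, mul_one, ← mul_assoc, mul_inv_cancel₀ hM.ne', one_mul]
      linarith [h1 u]
    have hs2 : Summable fun u : SV V => M * ((1 - ‖f u‖) * ‖p2 v u‖) := (summ2 hf _).mul_left M
    exact (Summable.of_nonneg_of_le (fun u => by positivity) hle hs2).tsum_le_tsum hle hs2
  exact h4.trans (mul_le_mul_of_nonneg_left h3 hM.le)

section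
variable {Z : Type*} [NormedAddCommGroup Z] [NormedSpace 𝕜 Z]

lemma op_bound {T : XX 𝕜 V →L[𝕜] Z} {M : ℝ} (hM : 0 < M)
    (h : ∀ u : SV V, ∀ θ : 𝕜, ‖θ‖ = 1 → ‖T (PP u θ)‖ ≤ M) : ‖T‖ ≤ M := by
  refine T.opNorm_le_bound hM.le fun v => ?_
  refine NormedSpace.norm_le_dual_bound 𝕜 (T v) (by positivity) fun g => ?_
  rcases eq_or_ne g 0 with rfl | hg
  · simp
  have hgp : 0 < ‖g‖ := norm_pos_iff.2 hg
  have := fun_bound (φ := g.comp T) (M := ‖g‖ * M) (by positivity) (fun u θ hθ =>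
    (g.le_opNorm _).trans (mul_le_mul_of_nonneg_left (h u θ hθ) hgp.le)) v
  calc ‖g (T v)‖ ≤ ‖g‖ * M * ‖v‖ := this
    _ = M * ‖v‖ * ‖g‖ := by ring

/-- the peaking functional -/
lemma exists_peak (u : SV V) (θ : 𝕜) (hθ : ‖θ‖ = 1) : ∃ φ : StrongDual 𝕜 (XX 𝕜 V),
    ‖φ‖ ≤ 1 ∧ φ (PP u θ) = 1 ∧ ∀ w : SV V, w ≠ u → ∀ ζ : 𝕜, ‖ζ‖ = 1 → ‖φ (PP w ζ)‖ ≤ 1 / 2 := by
  obtain ⟨g, hg, hgu⟩ := exists_dual_vector 𝕜 (u : V) (by rw [u.2]; exact one_ne_zero)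
  have hgu' : g (u : V) = 1 := by rw [hgu, u.2]; simp
  have hθ0 : θ ≠ 0 := by
    rintro rfl
    simp at hθ
  let φ₀ : XX 𝕜 V →ₗ[𝕜] 𝕜 :=
    (1 / 2 : 𝕜) • (g.toLinearMap.comp p1) +
      ((1 / 2 : 𝕜) * θ⁻¹) • ((lp.evalₗ (𝕜 := 𝕜) (E := fun _ : SV V => 𝕜) (p := 1) u).comp p2)
  have ha : ∀ v, φ₀ v = (1 / 2 : 𝕜) * g (p1 v) + (1 / 2 : 𝕜) * θ⁻¹ * p2 v u := fun v => rfl
  have h12 : ‖(1 / 2 : 𝕜)‖ = 1 / 2 := by
    rw [norm_div, norm_one, RCLike.norm_ofNat]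
  have hb : ∀ v, ‖φ₀ v‖ ≤ 1 * ‖v‖ := by
    intro v
    rw [ha]
    have e1 : ‖(1 / 2 : 𝕜) * g (p1 v)‖ ≤ 1 / 2 * ‖v‖ := by
      rw [norm_mul, h12]
      refine mul_le_mul_of_nonneg_left ?_ (by norm_num)
      calc ‖g (p1 v)‖ ≤ ‖g‖ * ‖p1 v‖ := g.le_opNorm _
        _ = ‖p1 v‖ := by rw [hg, one_mul]
        _ ≤ ‖v‖ := p1_le v
    have e2 : ‖(1 / 2 : 𝕜) * θ⁻¹ * p2 v u‖ ≤ 1 / 2 * ‖v‖ := by
      rw [norm_mul, norm_mul, h12, norm_inv, hθ, inv_one, mul_one]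
      refine mul_le_mul_of_nonneg_left ?_ (by norm_num)
      exact (lp.norm_apply_le_norm one_ne_zero (p2 v) u).trans (p2_le v)
    calc _ ≤ _ := norm_add_le _ _
      _ ≤ 1 / 2 * ‖v‖ + 1 / 2 * ‖v‖ := add_le_add e1 e2
      _ = 1 * ‖v‖ := by ring
  refine ⟨φ₀.mkContinuous 1 hb, LinearMap.mkContinuous_norm_le _ zero_le_one _, ?_, ?_⟩
  · rw [LinearMap.mkContinuous_apply, ha]
    have e1 : p1 (PP u θ) = (u : V) := rfl
    have e2 : p2 (PP u θ) u = θ := lp.single_apply_self (E := fun _ : SV V => 𝕜) 1 u θ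
    rw [e1, e2, hgu', mul_assoc, inv_mul_cancel₀ hθ0]
    norm_num
  · intro w hw ζ hζ
    rw [LinearMap.mkContinuous_apply, ha]
    have e1 : p1 (PP w ζ) = (w : V) := rfl
    have e2 : p2 (PP w ζ) u = 0 := lp.single_apply_ne (E := fun _ : SV V => 𝕜) 1 w ζ hw.symm
    rw [e1, e2, mul_zero, add_zero, norm_mul, h12]
    have := fu_le hg.le w
    linarith

/-- **Density.** -/
theorem dense_attains [Nontrivial V] : Dense {T : XX 𝕜 V →L[𝕜] Z | Attains T} := by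
  rw [Metric.dense_iff]
  intro T ε hε
  obtain ⟨x, hx⟩ := exists_ne (0 : V)
  have hxn : ‖x‖ ≠ 0 := norm_ne_zero_iff.2 hx
  let u₀ : SV V := ⟨((‖x‖⁻¹ : ℝ) : 𝕜) • x, by
      rw [norm_smul, RCLike.norm_ofReal, abs_of_nonneg (by positivity), inv_mul_cancel₀ hxn]⟩
  rcases eq_or_ne T 0 with rfl | hT
  · exact ⟨0, Metric.mem_ball_self hε, PP u₀ 1, norm_PP u₀ (by simp), by simp⟩
  have hR : 0 < ‖T‖ := norm_pos_iff.2 hT
  set R := ‖T‖ with hRdef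
  obtain ⟨η, hη, hη1, hηR⟩ : ∃ η : ℝ, 0 < η ∧ η ≤ 1 ∧ η * R < ε := by
    refine ⟨min 1 (ε / (2 * R)), by positivity, min_le_left _ _, ?_⟩
    calc min 1 (ε / (2 * R)) * R ≤ ε / (2 * R) * R :=
          mul_le_mul_of_nonneg_right (min_le_right _ _) hR.le
      _ = ε / 2 := by field_simp
      _ < ε := by linarith
  obtain ⟨u, θ, hθ, hTu⟩ : ∃ (u : SV V) (θ : 𝕜), ‖θ‖ = 1 ∧ R * (1 - η / 8) < ‖T (PP u θ)‖ := by
    by_contra hcon
    push Not at hcon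
    have hM : 0 < R * (1 - η / 8) := mul_pos hR (by linarith)
    have := op_bound hM hcon
    rw [← hRdef] at this
    nlinarith
  obtain ⟨φ, hφ, hφ1, hφ2⟩ := exists_peak u θ hθ
  let S : XX 𝕜 V →L[𝕜] Z := T + ((η : ℝ) : 𝕜) • φ.smulRight (T (PP u θ))
  have hS : ∀ v, S v = T v + ((η : ℝ) : 𝕜) • (φ v • T (PP u θ)) := fun v => rfl
  have hTPP : ‖T (PP u θ)‖ ≤ R := by
    have := T.le_opNorm (PP u θ)
    rwa [norm_PP u hθ, mul_one] at this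
  -- the maximum on the circle
  have hcomp : IsCompact (sphere (0 : 𝕜) 1) := isCompact_sphere _ _
  have hcont : Continuous fun ζ : 𝕜 => ‖S (PP u ζ)‖ := by
    have h1 : ∀ ζ : 𝕜, PP u ζ = mk (u : V) 0 + ζ • i2 (lp.single 1 u (1 : 𝕜)) := by
      intro ζ
      rw [← map_smul, i2_apply, mk_add, add_zero, zero_add, ← lp.single_smul, smul_eq_mul, mul_one]
      rfl
    have h2 : (fun ζ : 𝕜 => ‖S (PP u ζ)‖) =
        fun ζ => ‖S (mk (u : V) 0) + ζ • S (i2 (lp.single 1 u (1 : 𝕜)))‖ := by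
      funext ζ
      rw [h1, map_add, map_smul]
    rw [h2]
    fun_prop
  obtain ⟨ζ, hζ, hmax⟩ := hcomp.exists_isMaxOn ⟨θ, by simpa using hθ⟩ hcont.continuousOn
  have hζ' : ‖ζ‖ = 1 := by simpa using hζ
  have hmax' : ∀ ξ : 𝕜, ‖ξ‖ = 1 → ‖S (PP u ξ)‖ ≤ ‖S (PP u ζ)‖ := by
    intro ξ hξ
    exact hmax (by simpa using hξ)
  have hSθ : ‖S (PP u θ)‖ = (1 + η) * ‖T (PP u θ)‖ := by
    rw [hS, hφ1, one_smul]
    have : T (PP u θ) + ((η : ℝ) : 𝕜) • T (PP u θ) = ((1 + η : ℝ) : 𝕜) • T (PP u θ) := by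
      push_cast
      rw [add_smul, one_smul]
    rw [this, norm_smul, RCLike.norm_ofReal, abs_of_nonneg (by positivity)]
  have hlow : (1 + η / 2) * R ≤ ‖S (PP u ζ)‖ := by
    refine le_trans ?_ (hmax' θ hθ)
    rw [hSθ]
    have : (1 + η) * (R * (1 - η / 8)) ≤ (1 + η) * ‖T (PP u θ)‖ :=
      mul_le_mul_of_nonneg_left hTu.le (by positivity)
    refine le_trans ?_ this
    have h8 : 0 ≤ R * (η * (3 / 8 - η / 8)) := by
      have : 0 ≤ 3 / 8 - η / 8 := by linarith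
      positivity
    nlinarith
  have hup : ∀ w : SV V, ∀ ξ : 𝕜, ‖ξ‖ = 1 → ‖S (PP w ξ)‖ ≤ ‖S (PP u ζ)‖ := by
    intro w ξ hξ
    rcases eq_or_ne w u with rfl | hw
    · exact hmax' ξ hξ
    · refine le_trans ?_ hlow
      rw [hS]
      have h1 : ‖T (PP w ξ)‖ ≤ R := by
        have := T.le_opNorm (PP w ξ)
        rwa [norm_PP w hξ, mul_one] at this
      have h2 : ‖((η : ℝ) : 𝕜) • (φ (PP w ξ) • T (PP u θ))‖ ≤ η * (1 / 2 * R) := by
        rw [norm_smul, norm_smul, RCLike.norm_ofReal, abs_of_nonneg hη.le]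
        refine mul_le_mul_of_nonneg_left ?_ hη.le
        exact mul_le_mul (hφ2 w hw ξ hξ) hTPP (norm_nonneg _) (by norm_num)
      calc _ ≤ _ := norm_add_le _ _
        _ ≤ R + η * (1 / 2 * R) := add_le_add h1 h2
        _ = (1 + η / 2) * R := by ring
  have hpos : 0 < ‖S (PP u ζ)‖ := lt_of_lt_of_le (by positivity) hlow
  refine ⟨S, ?_, PP u ζ, norm_PP u hζ', ?_⟩
  · rw [Metric.mem_ball, dist_eq_norm]
    have : S - T = ((η : ℝ) : 𝕜) • φ.smulRight (T (PP u θ)) := by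
      simp only [S]
      abel
    rw [this, norm_smul, RCLike.norm_ofReal, abs_of_nonneg hη.le,
      ContinuousLinearMap.norm_smulRight_apply]
    refine lt_of_le_of_lt ?_ hηR
    refine mul_le_mul_of_nonneg_left ?_ hη.le
    calc ‖φ‖ * ‖T (PP u θ)‖ ≤ 1 * R := mul_le_mul hφ hTPP (norm_nonneg _) zero_le_one
      _ = R := one_mul _
  · refine le_antisymm ?_ (op_bound hpos hup)
    have := S.le_opNorm (PP u ζ)
    rwa [norm_PP u hζ', mul_one] at this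

end

/-- the subspace -/
def X1 (𝕜 : Type*) [RCLike 𝕜] (V : Type*) [NormedAddCommGroup V] [NormedSpace 𝕜 V] :
    Submodule 𝕜 (XX 𝕜 V) := LinearMap.ker (p2 (𝕜 := 𝕜) (V := V))

/-- the isometry onto the subspace -/
def iso : V ≃ₗᵢ[𝕜] X1 𝕜 V where
  toFun x := ⟨mk x 0, rfl⟩
  map_add' x y := Subtype.ext (by
    change (mk (x + y) 0 : XX 𝕜 V) = mk x 0 + mk y 0
    rw [mk_add, add_zero])
  map_smul' c x := Subtype.ext (by
    change (mk (c • x) 0 : XX 𝕜 V) = c • mk x 0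
    refine ext' rfl ?_
    rw [map_smul]
    change (0 : L1 𝕜 V) = c • (0 : L1 𝕜 V)
    rw [smul_zero])
  invFun v := p1 (v : XX 𝕜 V)
  left_inv x := rfl
  right_inv v := Subtype.ext (ext' rfl (LinearMap.mem_ker.1 v.2).symm)
  norm_map' x := norm_mk_zero x

/-- the projection -/
def proj : XX 𝕜 V →L[𝕜] XX 𝕜 V :=
  ((eL (𝕜 := 𝕜) (V := V)).symm.toContinuousLinearMap.comp
    (ContinuousLinearMap.inl 𝕜 V (L1 𝕜 V))).comp
    ((ContinuousLinearMap.fst 𝕜 V (L1 𝕜 V)).comp (eL (𝕜 := 𝕜) (V := V)).toContinuousLinearMap)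

lemma proj_apply (v : XX 𝕜 V) : proj v = mk (p1 v) 0 := rfl

lemma norm_proj_le : ‖(proj : XX 𝕜 V →L[𝕜] XX 𝕜 V)‖ ≤ 1 := by
  refine ContinuousLinearMap.opNorm_le_bound _ zero_le_one fun v => ?_
  rw [proj_apply, norm_mk_zero, one_mul]
  exact p1_le v

lemma proj_proj (v : XX 𝕜 V) : proj (proj v) = proj v := rfl

lemma range_proj : LinearMap.range (proj : XX 𝕜 V →L[𝕜] XX 𝕜 V).toLinearMap = X1 𝕜 V := by
  ext v
  constructor
  · rintro ⟨w, rfl⟩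
    exact rfl
  · intro hv
    exact ⟨v, ext' rfl (LinearMap.mem_ker.1 hv).symm⟩

lemma attains_iso {Z : Type*} [NormedAddCommGroup Z] [NormedSpace 𝕜 Z] {T : X1 𝕜 V →L[𝕜] Z}
    (h : Attains T) : Attains (T.comp (iso (𝕜 := 𝕜) (V := V)).toContinuousLinearEquiv.toContinuousLinearMap) := by
  obtain ⟨x, hx, hT⟩ := h
  refine ⟨(iso (𝕜 := 𝕜) (V := V)).symm x, by rw [LinearIsometryEquiv.norm_map, hx], ?_⟩
  have h1 : (T.comp (iso (𝕜 := 𝕜) (V := V)).toContinuousLinearEquiv.toContinuousLinearMap)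
      ((iso (𝕜 := 𝕜) (V := V)).symm x) = T x := by
    change T (iso ((iso (𝕜 := 𝕜) (V := V)).symm x)) = T x
    rw [LinearIsometryEquiv.apply_symm_apply]
  rw [h1, hT]
  refine le_antisymm ?_ ?_
  · refine T.opNorm_le_bound (norm_nonneg _) fun y => ?_
    have h2 := (T.comp (iso (𝕜 := 𝕜) (V := V)).toContinuousLinearEquiv.toContinuousLinearMap).le_opNorm
      ((iso (𝕜 := 𝕜) (V := V)).symm y)
    rw [LinearIsometryEquiv.norm_map] at h2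
    refine le_trans (le_of_eq ?_) h2
    change ‖T y‖ = ‖T (iso ((iso (𝕜 := 𝕜) (V := V)).symm y))‖
    rw [LinearIsometryEquiv.apply_symm_apply]
  · refine ContinuousLinearMap.opNorm_le_bound _ (norm_nonneg T) fun y => ?_
    refine (T.le_opNorm _).trans (le_of_eq ?_)
    congr 1
    exact (iso (𝕜 := 𝕜) (V := V)).norm_map y

end

end Pool.Agent.Q169.NAD
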