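import Pool.Agent.Q169.NAD

set_option autoImplicit false
set_option linter.unusedSectionVars false

/-!
An equivalent strictly convex renorming `YY` of `c₀`; the norm attaining operators from `c₀` to it
are not dense.
-/

open Metric Set Filter
open scoped ENNReal Topology ZeroAtInfty

namespace Pool.Agent.Q169.NAD

noncomputable section

variable (𝕜 : Type*) [RCLike 𝕜]

/-- the null sequences -/
def CC : Type _ := C₀(ℕ, 𝕜)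

instance : NormedAddCommGroup (CC 𝕜) := inferInstanceAs (NormedAddCommGroup C₀(ℕ, 𝕜))
instance : NormedSpace 𝕜 (CC 𝕜) := inferInstanceAs (NormedSpace 𝕜 C₀(ℕ, 𝕜))
instance : CompleteSpace (CC 𝕜) := inferInstanceAs (CompleteSpace C₀(ℕ, 𝕜))

/-- the Hilbert space -/
def HH : Type _ := lp (fun _ : ℕ => 𝕜) 2

instance : NormedAddCommGroup (HH 𝕜) := inferInstanceAs (NormedAddCommGroup (lp (fun _ : ℕ => 𝕜) 2))
instance : InnerProductSpace 𝕜 (HH 𝕜) :=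
  inferInstanceAs (InnerProductSpace 𝕜 (lp (fun _ : ℕ => 𝕜) 2))
instance : CompleteSpace (HH 𝕜) := inferInstanceAs (CompleteSpace (lp (fun _ : ℕ => 𝕜) 2))

variable {𝕜}

/-- the entries of a null sequence -/
def ev (x : CC 𝕜) (n : ℕ) : 𝕜 := (show C₀(ℕ, 𝕜) from x) n

/-- the entries of a square summable sequence -/
def hv (x : HH 𝕜) (n : ℕ) : 𝕜 := (show lp (fun _ : ℕ => 𝕜) 2 from x) n

lemma ev_add (x y : CC 𝕜) (n : ℕ) : ev (x + y) n = ev x n + ev y n := rfl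
lemma ev_smul (c : 𝕜) (x : CC 𝕜) (n : ℕ) : ev (c • x) n = c * ev x n := rfl
lemma hv_add (x y : HH 𝕜) (n : ℕ) : hv (x + y) n = hv x n + hv y n := rfl
lemma hv_smul (c : 𝕜) (x : HH 𝕜) (n : ℕ) : hv (c • x) n = c * hv x n := rfl

lemma ev_ext {x y : CC 𝕜} (h : ∀ n, ev x n = ev y n) : x = y :=
  ZeroAtInftyContinuousMap.ext (f := (show C₀(ℕ, 𝕜) from x)) (g := (show C₀(ℕ, 𝕜) from y)) h

lemma hv_ext {x y : HH 𝕜} (h : ∀ n, hv x n = hv y n) : x = y := by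
  apply Subtype.ext
  funext n
  exact h n

lemma norm_CC (x : CC 𝕜) : ‖x‖ = ‖(show C₀(ℕ, 𝕜) from x).toBCF‖ :=
  (ZeroAtInftyContinuousMap.norm_toBCF_eq_norm (f := (show C₀(ℕ, 𝕜) from x))).symm

lemma abs_le (x : CC 𝕜) (n : ℕ) : ‖ev x n‖ ≤ ‖x‖ := by
  rw [norm_CC]
  exact (show C₀(ℕ, 𝕜) from x).toBCF.norm_coe_le_norm n

lemma norm_le {x : CC 𝕜} {C : ℝ} (hC : 0 ≤ C) (h : ∀ n, ‖ev x n‖ ≤ C) : ‖x‖ ≤ C := by
  rw [norm_CC]
  exact (BoundedContinuousFunction.norm_le hC).2 h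

lemma term_le (x : CC 𝕜) (n : ℕ) :
    ‖(((1 / 2 : ℝ) ^ n : ℝ) : 𝕜) * ev x n‖ ^ (2 : ℝ) ≤ (1 / 4 : ℝ) ^ n * ‖x‖ ^ 2 := by
  rw [norm_mul, Real.rpow_two, mul_pow, RCLike.norm_ofReal, abs_of_nonneg (by positivity),
    ← pow_mul, mul_comm n 2, pow_mul]
  have h4 : ((1 / 2 : ℝ) ^ 2) = 1 / 4 := by norm_num
  rw [h4]
  exact mul_le_mul_of_nonneg_left (pow_le_pow_left₀ (norm_nonneg _) (abs_le x n) 2) (by positivity)

lemma mem2 (x : CC 𝕜) : Memℓp (fun n => (((1 / 2 : ℝ) ^ n : ℝ) : 𝕜) * ev x n) 2 := by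
  refine memℓp_gen ?_
  have h2 : (2 : ℝ≥0∞).toReal = 2 := by norm_num
  rw [h2]
  exact Summable.of_nonneg_of_le (fun n => by positivity) (fun n => term_le x n)
    ((summable_geometric_of_lt_one (r := (1 / 4 : ℝ)) (by norm_num) (by norm_num)).mul_right
      (‖x‖ ^ 2))

/-- the weighted inclusion, linear -/
def J₀ : CC 𝕜 →ₗ[𝕜] HH 𝕜 where
  toFun x := (⟨fun n => (((1 / 2 : ℝ) ^ n : ℝ) : 𝕜) * ev x n, mem2 x⟩ : lp (fun _ : ℕ => 𝕜) 2)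
  map_add' x y := hv_ext fun n => by
    change (((1 / 2 : ℝ) ^ n : ℝ) : 𝕜) * (ev x n + ev y n) = _
    rw [mul_add]
    rfl
  map_smul' c x := hv_ext fun n => by
    change (((1 / 2 : ℝ) ^ n : ℝ) : 𝕜) * (c * ev x n) = c * ((((1 / 2 : ℝ) ^ n : ℝ) : 𝕜) * ev x n)
    ring

lemma J₀_apply (x : CC 𝕜) (n : ℕ) : hv (J₀ x) n = (((1 / 2 : ℝ) ^ n : ℝ) : 𝕜) * ev x n := rfl

lemma J₀_le (x : CC 𝕜) : ‖J₀ x‖ ≤ 2 * ‖x‖ := by
  have h2 : (2 : ℝ≥0∞).toReal = 2 := by norm_num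
  refine lp.norm_le_of_tsum_le (p := 2) (by rw [h2]; norm_num) (by positivity) ?_
  rw [h2]
  have hg : HasSum (fun n : ℕ => (1 / 4 : ℝ) ^ n * ‖x‖ ^ 2) ((1 - 1 / 4)⁻¹ * ‖x‖ ^ 2) :=
    (hasSum_geometric_of_lt_one (by norm_num) (by norm_num)).mul_right _
  have hs : Summable fun n : ℕ => ‖(((1 / 2 : ℝ) ^ n : ℝ) : 𝕜) * ev x n‖ ^ (2 : ℝ) :=
    Summable.of_nonneg_of_le (fun n => by positivity) (fun n => term_le x n) hg.summable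
  calc ∑' n : ℕ, ‖(((1 / 2 : ℝ) ^ n : ℝ) : 𝕜) * ev x n‖ ^ (2 : ℝ) ≤ (1 - 1 / 4)⁻¹ * ‖x‖ ^ 2 := by
        rw [← hg.tsum_eq]
        exact hs.tsum_le_tsum (fun n => term_le x n) hg.summable
    _ ≤ (2 * ‖x‖) ^ (2 : ℝ) := by
        rw [Real.rpow_two]
        nlinarith [sq_nonneg ‖x‖]

/-- the weighted inclusion -/
def JJ : CC 𝕜 →L[𝕜] HH 𝕜 := J₀.mkContinuous 2 J₀_le

lemma JJ_inj {x : CC 𝕜} (h : JJ x = 0) : x = 0 := by
  refine ev_ext fun n => ?_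
  have h1 : hv (JJ x) n = 0 := by rw [h]; rfl
  have h2 : hv (JJ x) n = (((1 / 2 : ℝ) ^ n : ℝ) : 𝕜) * ev x n := rfl
  rw [h2] at h1
  have h3 : (((1 / 2 : ℝ) ^ n : ℝ) : 𝕜) ≠ 0 := by
    exact_mod_cast (by positivity : ((1 / 2 : ℝ) ^ n) ≠ 0)
  exact (mul_eq_zero.1 h1).resolve_left h3

variable (𝕜) in
/-- the sum space -/
abbrev WW := WithLp 1 (CC 𝕜 × HH 𝕜)

lemma norm_WW (w : WW 𝕜) : ‖w‖ = ‖w.fst‖ + ‖w.snd‖ := WithLp.prod_norm_eq_of_L1 w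

variable (𝕜) in
/-- the defining map of the graph -/
def dd : WW 𝕜 →L[𝕜] HH 𝕜 :=
  (JJ.comp (ContinuousLinearMap.fst 𝕜 (CC 𝕜) (HH 𝕜)) -
    ContinuousLinearMap.snd 𝕜 (CC 𝕜) (HH 𝕜)).comp
    (WithLp.prodContinuousLinearEquiv 1 𝕜 (CC 𝕜) (HH 𝕜)).toContinuousLinearMap

lemma dd_apply (w : WW 𝕜) : dd 𝕜 w = JJ w.fst - w.snd := rfl

variable (𝕜) in
/-- the graph -/
def Y0 : Submodule 𝕜 (WW 𝕜) := LinearMap.ker (dd 𝕜).toLinearMap

variable (𝕜) in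
/-- the renormed space -/
def YY : Type _ := Y0 𝕜

instance : NormedAddCommGroup (YY 𝕜) := inferInstanceAs (NormedAddCommGroup (Y0 𝕜))
instance : NormedSpace 𝕜 (YY 𝕜) := inferInstanceAs (NormedSpace 𝕜 (Y0 𝕜))

instance : CompleteSpace (YY 𝕜) := by
  have h : IsClosed (Y0 𝕜 : Set (WW 𝕜)) := (dd 𝕜).isClosed_ker
  exact h.completeSpace_coe

/-- the inclusion -/
def ww (y : YY 𝕜) : WW 𝕜 := (show Y0 𝕜 from y).1

lemma ww_ext {y z : YY 𝕜} (h : ww y = ww z) : y = z := Subtype.ext h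

lemma mem_YY (y : YY 𝕜) : (ww y).snd = JJ (ww y).fst := by
  have h := (show Y0 𝕜 from y).2
  have h' : dd 𝕜 (ww y) = 0 := h
  rw [dd_apply] at h'
  exact (sub_eq_zero.1 h').symm

/-- second coordinate -/
def ss (y : YY 𝕜) : HH 𝕜 := (ww y).snd
/-- first coordinate -/
def rr (y : YY 𝕜) : CC 𝕜 := (ww y).fst

lemma norm_YY (y : YY 𝕜) : ‖y‖ = ‖rr y‖ + ‖ss y‖ := norm_WW _
lemma ss_add (y z : YY 𝕜) : ss (y + z) = ss y + ss z := rfl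
lemma ss_sub (y z : YY 𝕜) : ss (y - z) = ss y - ss z := rfl
lemma rr_add (y z : YY 𝕜) : rr (y + z) = rr y + rr z := rfl
lemma rr_sub (y z : YY 𝕜) : rr (y - z) = rr y - rr z := rfl
lemma ss_smul (c : 𝕜) (y : YY 𝕜) : ss (c • y) = c • ss y := rfl

lemma ss_inj {y : YY 𝕜} (h : ss y = 0) : y = 0 := by
  have h2 : rr y = 0 := JJ_inj ((mem_YY y).symm.trans h)
  have h3 : ‖y‖ = 0 := by rw [norm_YY, h2, h, norm_zero, norm_zero, add_zero]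
  exact norm_eq_zero.1 h3

/-- the embedding -/
def TT₀ : CC 𝕜 →ₗ[𝕜] YY 𝕜 where
  toFun x := (⟨WithLp.toLp 1 (x, JJ x), by
    change JJ x - JJ x = 0
    exact sub_self _⟩ : Y0 𝕜)
  map_add' x y := by
    apply ww_ext
    change WithLp.toLp 1 (x + y, JJ (x + y)) = WithLp.toLp 1 (x, JJ x) + WithLp.toLp 1 (y, JJ y)
    rw [map_add]
    rfl
  map_smul' c x := by
    apply ww_ext
    change WithLp.toLp 1 (c • x, JJ (c • x)) = c • WithLp.toLp 1 (x, JJ x)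
    rw [map_smul]
    rfl

/-- the embedding -/
def TT : CC 𝕜 →L[𝕜] YY 𝕜 := TT₀.mkContinuous (1 + ‖(JJ : CC 𝕜 →L[𝕜] HH 𝕜)‖) (fun x => by
  rw [norm_YY, add_mul, one_mul]
  have h : ‖(JJ : CC 𝕜 →L[𝕜] HH 𝕜) x‖ ≤ ‖(JJ : CC 𝕜 →L[𝕜] HH 𝕜)‖ * ‖x‖ :=
    ContinuousLinearMap.le_opNorm _ _
  change ‖x‖ + ‖(JJ : CC 𝕜 →L[𝕜] HH 𝕜) x‖ ≤ _
  linarith)

lemma le_TT (x : CC 𝕜) : ‖x‖ ≤ ‖TT x‖ := by
  rw [norm_YY]
  exact le_add_of_nonneg_right (norm_nonneg _)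

/-- unit vectors -/
def en₀ (n : ℕ) : C₀(ℕ, 𝕜) where
  toFun m := if m = n then 1 else 0
  continuous_toFun := continuous_of_discreteTopology
  zero_at_infty' := by
    rw [Filter.cocompact_eq_cofinite]
    refine tendsto_const_nhds.congr' ?_
    have : {n}ᶜ ∈ (cofinite : Filter ℕ) := by simp
    filter_upwards [this] with m hm
    exact (if_neg hm).symm

/-- unit vectors -/
def en (n : ℕ) : CC 𝕜 := (en₀ n : C₀(ℕ, 𝕜))

lemma en_apply (n m : ℕ) : ev (en n : CC 𝕜) m = if m = n then 1 else 0 := rfl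

lemma one_le_en (n : ℕ) : 1 ≤ ‖(en n : CC 𝕜)‖ := by
  have := abs_le (en n : CC 𝕜) n
  rwa [en_apply, if_pos rfl, norm_one] at this

lemma en_le (n : ℕ) : ‖(en n : CC 𝕜)‖ ≤ 1 := by
  refine norm_le zero_le_one fun m => ?_
  rw [en_apply]
  split_ifs <;> simp

lemma exists_small (x : CC 𝕜) : ∃ n, ‖ev x n‖ ≤ 1 / 2 := by
  have h : Tendsto (fun n => ev x n) atTop (𝓝 0) := by
    have h := (show C₀(ℕ, 𝕜) from x).zero_at_infty'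
    rw [Filter.cocompact_eq_cofinite, Nat.cofinite_eq_atTop] at h
    exact h
  have h1 := h.norm
  rw [norm_zero] at h1
  obtain ⟨n, hn⟩ := (h1.eventually (ge_mem_nhds (show (0 : ℝ) < 1 / 2 by norm_num))).exists
  exact ⟨n, hn⟩

lemma pm_le {x : CC 𝕜} (hx : ‖x‖ = 1) {n : ℕ} (hn : ‖ev x n‖ ≤ 1 / 2) {c : 𝕜}
    (hc : ‖c‖ = 1 / 2) : ‖x + c • en n‖ ≤ 1 := by
  refine norm_le zero_le_one fun m => ?_
  rw [ev_add, ev_smul, en_apply]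
  split_ifs with h
  · rw [h, mul_one]
    calc _ ≤ _ := norm_add_le _ _
      _ ≤ 1 / 2 + 1 / 2 := add_le_add hn hc.le
      _ = 1 := by norm_num
  · rw [mul_zero, add_zero, ← hx]
    exact abs_le x m

section
variable {E : Type*} [NormedAddCommGroup E] [InnerProductSpace 𝕜 E]

lemma same {a b : E} (h : ‖a + b‖ = ‖a‖ + ‖b‖) : (‖b‖ : 𝕜) • a = (‖a‖ : 𝕜) • b := by
  have h1 := norm_add_sq (𝕜 := 𝕜) a b
  rw [h] at h1
  have h2 : RCLike.re (inner 𝕜 a b) = ‖a‖ * ‖b‖ := by nlinarith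
  have h3 := norm_sub_sq (𝕜 := 𝕜) ((‖b‖ : 𝕜) • a) ((‖a‖ : 𝕜) • b)
  rw [inner_smul_left, inner_smul_right, norm_smul, norm_smul, RCLike.conj_ofReal,
    RCLike.norm_ofReal, RCLike.norm_ofReal, abs_norm, abs_norm, ← mul_assoc, ← RCLike.ofReal_mul,
    RCLike.re_ofReal_mul, h2] at h3
  have h4 : ‖(‖b‖ : 𝕜) • a - (‖a‖ : 𝕜) • b‖ ^ 2 = 0 := by
    rw [h3]; ring
  have h5 : ‖(‖b‖ : 𝕜) • a - (‖a‖ : 𝕜) • b‖ = 0 := by
    simpa using h4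
  exact sub_eq_zero.1 (norm_eq_zero.1 h5)

include 𝕜 in
/-- dichotomy in a Hilbert space -/
lemma dich {a b : E} (h : ‖a + b‖ + ‖a - b‖ = 2 * ‖a‖) :
    ‖a + b‖ = ‖a‖ + ‖b‖ ∨ ‖a - b‖ = ‖a‖ + ‖b‖ := by
  have hp := parallelogram_law_with_norm 𝕜 a b
  have h1 : (‖a + b‖ - ‖a - b‖) ^ 2 = (2 * ‖b‖) ^ 2 := by
    have e : (‖a + b‖ - ‖a - b‖) ^ 2 =
        2 * (‖a + b‖ ^ 2 + ‖a - b‖ ^ 2) - (‖a + b‖ + ‖a - b‖) ^ 2 := by ring
    rw [e, hp, h]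
    ring
  rcases sq_eq_sq_iff_eq_or_eq_neg.1 h1 with h2 | h2
  · left; linarith
  · right; linarith

end

lemma key {u v : YY 𝕜} (h1 : ‖u + v‖ ≤ ‖u‖) (h2 : ‖u - v‖ ≤ ‖u‖) : v = 0 := by
  by_contra hv
  have hsv : ss v ≠ 0 := fun h => hv (ss_inj h)
  have hb : 0 < ‖ss v‖ := norm_pos_iff.2 hsv
  have ha1 : 2 * ‖ss u‖ ≤ ‖ss (u + v)‖ + ‖ss (u - v)‖ := by
    have : ‖ss (u + v) + ss (u - v)‖ = 2 * ‖ss u‖ := by
      have e : ss (u + v) + ss (u - v) = (2 : 𝕜) • ss u := by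
        rw [ss_add, ss_sub, two_smul]; abel
      rw [e, norm_smul, RCLike.norm_ofNat]
    rw [← this]
    exact norm_add_le _ _
  have ha2 : 2 * ‖rr u‖ ≤ ‖rr (u + v)‖ + ‖rr (u - v)‖ := by
    have : ‖rr (u + v) + rr (u - v)‖ = 2 * ‖rr u‖ := by
      have e : rr (u + v) + rr (u - v) = (2 : 𝕜) • rr u := by
        rw [rr_add, rr_sub, two_smul 𝕜 (rr u)]; abel
      rw [e, norm_smul, RCLike.norm_ofNat]
    rw [← this]
    exact norm_add_le _ _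
  have hn1 := norm_YY (u + v)
  have hn2 := norm_YY (u - v)
  have hn3 := norm_YY u
  have heq : ‖ss (u + v)‖ + ‖ss (u - v)‖ = 2 * ‖ss u‖ := by linarith
  rw [ss_add, ss_sub] at heq
  -- a contradiction from `‖ss v‖ u = ‖ss u‖ w` with `‖u + w‖ ≤ ‖u‖`
  have fin : ∀ w : YY 𝕜, ‖ss w‖ = ‖ss v‖ → ‖u + w‖ ≤ ‖u‖ →
      (‖ss w‖ : 𝕜) • ss u = (‖ss u‖ : 𝕜) • ss w → False := by
    intro w hw hle h
    have hwpos : 0 < ‖ss w‖ := by rw [hw]; exact hb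
    have h3 : (‖ss w‖ : 𝕜) • u = (‖ss u‖ : 𝕜) • w := by
      have : ss ((‖ss w‖ : 𝕜) • u - (‖ss u‖ : 𝕜) • w) = 0 := by
        rw [ss_sub, ss_smul, ss_smul, h, sub_self]
      exact sub_eq_zero.1 (ss_inj this)
    rcases eq_or_ne u 0 with hu | hu
    · rw [hu, zero_add, norm_zero] at hle
      have hw0 : w = 0 := norm_le_zero_iff.1 hle
      rw [hw0] at hwpos
      have : ss (0 : YY 𝕜) = 0 := rfl
      rw [this, norm_zero] at hwpos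
      exact lt_irrefl _ hwpos
    · have hup : 0 < ‖u‖ := norm_pos_iff.2 hu
      have hsu : 0 < ‖ss u‖ := norm_pos_iff.2 fun h => hu (ss_inj h)
      have h4 : (‖ss u‖ : 𝕜) • (u + w) = ((‖ss u‖ + ‖ss w‖ : ℝ) : 𝕜) • u := by
        rw [smul_add, ← h3, RCLike.ofReal_add, add_smul]
      have h5 := congrArg norm h4
      rw [norm_smul, norm_smul, RCLike.norm_ofReal, RCLike.norm_ofReal, abs_norm,
        abs_of_nonneg (by positivity)] at h5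
      nlinarith
  rcases dich (𝕜 := 𝕜) heq with h | h
  · exact fin v rfl h1 (same h)
  · have hneg : ss (-v) = -ss v := rfl
    have hnn : ‖ss (-v)‖ = ‖ss v‖ := by rw [hneg, norm_neg]
    refine fin (-v) hnn (by rwa [← sub_eq_add_neg]) (same ?_)
    rw [hnn, hneg, ← sub_eq_add_neg]
    exact h

/-- an operator attaining its norm at `x` kills the unit vectors `e_n` with `|x n| ≤ 1 / 2` -/
lemma kills {T : CC 𝕜 →L[𝕜] YY 𝕜} {x : CC 𝕜} (hx : ‖x‖ = 1) (hT : ‖T x‖ = ‖T‖) {n : ℕ}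
    (hn : ‖ev x n‖ ≤ 1 / 2) : T (en n) = 0 := by
  have hc : ‖(1 / 2 : 𝕜)‖ = 1 / 2 := by
    rw [norm_div, norm_one, RCLike.norm_ofNat]
  have hc' : ‖(-(1 / 2) : 𝕜)‖ = 1 / 2 := by rw [norm_neg, hc]
  have hb : ∀ c : 𝕜, ‖c‖ = 1 / 2 → ‖T x + c • T (en n)‖ ≤ ‖T x‖ := by
    intro c hc
    rw [hT, ← map_smul, ← map_add]
    calc ‖T (x + c • en n)‖ ≤ ‖T‖ * ‖x + c • en n‖ := T.le_opNorm _
      _ ≤ ‖T‖ * 1 := mul_le_mul_of_nonneg_left (pm_le hx hn hc) (norm_nonneg _)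
      _ = ‖T‖ := mul_one _
  have h1 := hb _ hc
  have h2 := hb _ hc'
  rw [neg_smul, ← sub_eq_add_neg] at h2
  have h3 := key h1 h2
  have h4 : (1 / 2 : 𝕜) ≠ 0 := by
    intro h
    rw [h, norm_zero] at hc
    norm_num at hc
  exact (smul_eq_zero.1 h3).resolve_left h4

lemma far {T : CC 𝕜 →L[𝕜] YY 𝕜} (h : Attains T) : 1 ≤ ‖T - TT‖ := by
  obtain ⟨x, hx, hT⟩ := h
  obtain ⟨n, hn⟩ := exists_small x
  have h0 := kills hx hT hn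
  have h1 := (T - TT).le_opNorm (en n)
  rw [sub_apply, h0, zero_sub, norm_neg] at h1
  have h2 := le_TT (en n : CC 𝕜)
  have h3 := one_le_en (𝕜 := 𝕜) n
  have h4 := en_le (𝕜 := 𝕜) n
  have h5 : ‖T - TT‖ * ‖(en n : CC 𝕜)‖ ≤ ‖T - TT‖ * 1 :=
    mul_le_mul_of_nonneg_left h4 (norm_nonneg _)
  linarith

theorem not_dense : ¬ Dense {T : X1 𝕜 (CC 𝕜) →L[𝕜] YY 𝕜 | Attains T} := by
  intro hd
  have hd := (Metric.dense_iff (α := X1 𝕜 (CC 𝕜) →L[𝕜] YY 𝕜)).1 hd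
  let e := (iso (𝕜 := 𝕜) (V := CC 𝕜))
  let T₁ : X1 𝕜 (CC 𝕜) →L[𝕜] YY 𝕜 := TT.comp e.symm.toContinuousLinearEquiv.toContinuousLinearMap
  obtain ⟨S, hS, hSa⟩ := hd T₁ 1 one_pos
  have h1 := far (attains_iso hSa)
  have hS' : ‖S - T₁‖ < 1 := by
    have h0 : dist S T₁ < 1 := hS
    calc ‖S - T₁‖ = dist S T₁ := (dist_eq_norm S T₁).symm
      _ < 1 := h0
  have h2 : S.comp e.toContinuousLinearEquiv.toContinuousLinearMap - TT =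
      (S - T₁).comp e.toContinuousLinearEquiv.toContinuousLinearMap := by
    ext1 x
    change S (e x) - TT x = S (e x) - TT (e.symm (e x))
    rw [LinearIsometryEquiv.symm_apply_apply]
  have h3 : ‖(S - T₁).comp e.toContinuousLinearEquiv.toContinuousLinearMap‖ ≤ ‖S - T₁‖ := by
    refine ContinuousLinearMap.opNorm_le_bound _ (norm_nonneg (S - T₁)) fun y => ?_
    refine ((S - T₁).le_opNorm _).trans (le_of_eq ?_)
    congr 1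
    exact e.norm_map y
  rw [← h2] at h3
  linarith

end

end Pool.Agent.Q169.NAD
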